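import Mathlib
import Pool.Agent.BLie.NotTwo
import Pool.Agent.BLie.C2.Main

/-!
Over every field, the free binary-Lie algebra on every set with at least three elements has a
nonzero ideal with zero square.
-/

set_option autoImplicit false

universe u v w z

open Pool.Agent.BLie

theorem Pool.Agent.Results.MP_a7ecc6_al.TrivialIdealAllFields.result (F : Type u) [Field F]
    (X : Type v) (hX : 3 ≤ Cardinal.mk X) :
    (∃ (B : Type (max u v)) (_ : NonUnitalNonAssocRing B) (_ : Module F B)
      (_ : IsScalarTower F B B) (_ : SMulCommClass F B B) (ι : X → B),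
      IsFreeBinaryLie.{u, v, max u v, z} F X B ι) ∧
    ∀ (B : Type w) [NonUnitalNonAssocRing B] [Module F B] [IsScalarTower F B B]
      [SMulCommClass F B B] (ι : X → B), IsFreeBinaryLie.{u, v, w, max u v} F X B ι →
      ∃ I : Submodule F B, I ≠ ⊥ ∧ (∀ a ∈ I, ∀ b : B, a * b ∈ I ∧ b * a ∈ I) ∧
        ∀ a ∈ I, ∀ b ∈ I, a * b = 0 := by
  refine ⟨⟨FB2 F X, inferInstance, inferInstance, inferInstance, inferInstance, fb2 F X,
    FB2_free F X⟩, ?_⟩
  intro B _ _ _ _ ι hB
  by_cases h2 : (2 : F) = 0
  · exact C2.trivialIdeal_two F h2 X hX B ι hB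
  · exact trivialIdeal_notTwo F h2 X hX B ι hB
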